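import Pool.Agent.Lib.MP_374dcb_al.Main

/-!
# The amalgam of the flag stabilisers is not the automorphism group of affine 3-space

Let `k` be a field of characteristic zero and `n = 3`. The natural homomorphism from the amalgamated product of the
stabilisers `G_1`, `G_2`, `G_3` along their pairwise intersections to the automorphism group of `k[x_1,x_2,x_3]` is not
bijective: if `G_1`, `G_2`, `G_3` generate the automorphism group (an affirmative answer to Q1 for `n = 3`), then it is not
injective. This answers Q2 in the negative.
-/

set_option autoImplicit false

universe u

/-- For every field `k` of characteristic zero, the natural homomorphism from the amalgamated product (along pairwise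
intersections) of the stabilisers of `V_1 ⊆ V_2 ⊆ V_3` to the automorphism group of the polynomial ring in three variables
is not bijective. -/
theorem Pool.Agent.Results.MP_374dcb_al.FlagAmalgam.result (k : Type u) [Field k] [CharZero k] :
    ¬Function.Bijective (SU.Amalg.toGroup (SU.flagStab k 3)) :=
  SU.amalg_not_bijective k
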